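import Pool.Agent.THF.T2.Rec2
import Pool.Agent.QD.In.Cls

/-!
# THF/T2-Perp: the orthogonal complement of the totally positive classes

`exists_pos`: every class modulo local squares at `S` contains a totally positive element
(approximation by adding a large multiple of a rational integer which is small at `S`).
`perp_loc`: an element which is orthogonal to all totally positive elements is a local square at
`S` (nondegeneracy of the pairing and the reciprocity law `rec2`).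
-/

set_option autoImplicit false

namespace Pool.Agent.THF

open NumberField IsDedekindDomain Pool.Agent.HWR Pool.Agent.QD

variable {K : Type} [Field K] [NumberField K]

/-- integral approximation with positive values at all real places -/
private theorem pos_int (S : Finset (HeightOneSpectrum (𝓞 K)))
    (k : HeightOneSpectrum (𝓞 K) → ℕ) (a : 𝓞 K) :
    ∃ z : 𝓞 K, z ≠ 0 ∧ (∀ w ∈ S, z - a ∈ w.asIdeal ^ k w) ∧
      ∀ φ : K →+* ℝ, 0 < φ (algebraMap (𝓞 K) K z) := by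
  classical
  set M : ℕ := ∏ w ∈ S, Ideal.absNorm (w.asIdeal ^ k w) with hM
  have hMpos : 0 < M := Finset.prod_pos fun w _ => Nat.pos_of_ne_zero (by
    rw [Ne, Ideal.absNorm_eq_zero_iff]; exact pow_ne_zero _ w.ne_bot)
  have hMmem : ∀ w ∈ S, (M : 𝓞 K) ∈ w.asIdeal ^ k w := by
    intro w hw
    rw [hM, ← Finset.mul_prod_erase _ _ hw, Nat.cast_mul]
    exact Ideal.mul_mem_right _ _ (Ideal.absNorm_mem _)
  have hM0 : (M : 𝓞 K) ≠ 0 := by
    exact_mod_cast hMpos.ne'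
  obtain ⟨L0, hL0⟩ := exists_nat_gt (∑ φ : K →+* ℝ, |φ (algebraMap (𝓞 K) K a)|)
  obtain ⟨L, hLL, hL⟩ : ∃ L : ℕ, L0 ≤ L ∧ a + (M : 𝓞 K) * (L : 𝓞 K) ≠ 0 := by
    by_cases h : a + (M : 𝓞 K) * (L0 : 𝓞 K) = 0
    · refine ⟨L0 + 1, Nat.le_succ _, ?_⟩
      have e : a + (M : 𝓞 K) * ((L0 + 1 : ℕ) : 𝓞 K) = (a + (M : 𝓞 K) * (L0 : 𝓞 K)) + (M : 𝓞 K) := by
        push_cast
        ring
      rw [e, h, zero_add]
      exact hM0
    · exact ⟨L0, le_rfl, h⟩
  refine ⟨a + (M : 𝓞 K) * (L : 𝓞 K), hL, ?_, ?_⟩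
  · intro w hw
    have e : a + (M : 𝓞 K) * (L : 𝓞 K) - a = (M : 𝓞 K) * (L : 𝓞 K) := by ring
    rw [e]
    exact Ideal.mul_mem_right _ _ (hMmem w hw)
  · intro φ
    rw [map_add, map_mul, map_add, map_mul, map_natCast, map_natCast, map_natCast, map_natCast]
    have h2 : |φ (algebraMap (𝓞 K) K a)| < L0 := by
      refine lt_of_le_of_lt ?_ hL0
      exact Finset.single_le_sum (f := fun φ : K →+* ℝ => |φ (algebraMap (𝓞 K) K a)|)
        (fun _ _ => abs_nonneg _) (Finset.mem_univ φ)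
    have h3 : (L0 : ℝ) ≤ M * L := by
      have h5 : (1 : ℝ) ≤ M := by exact_mod_cast hMpos
      have h6 : (L0 : ℝ) ≤ L := by exact_mod_cast hLL
      nlinarith [(Nat.cast_nonneg L : (0 : ℝ) ≤ L)]
    have h4 := neg_abs_le (φ (algebraMap (𝓞 K) K a))
    linarith

private theorem pos_close (w : HeightOneSpectrum (𝓞 K)) (X Z : Kˣ) (a z : 𝓞 K)
    (hX : (X : K) = algebraMap (𝓞 K) K a) (hZ : (Z : K) = algebraMap (𝓞 K) K z) (n m : ℕ)
    (h : z - a ∈ w.asIdeal ^ m) (hm : ordK w X + n ≤ m) :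
    closeOne w n ((Z / X : Kˣ) : K) := by
  unfold closeOne
  have h1 : ((Z / X : Kˣ) : K) - 1 = (algebraMap (𝓞 K) K (z - a)) * (X : K)⁻¹ := by
    have hx : (X : K) ≠ 0 := X.ne_zero
    rw [map_sub, ← hX, ← hZ]
    push_cast
    field_simp
  have h2 : w.valuation K (algebraMap (𝓞 K) K (z - a)) ≤ WithZero.exp (-(m : ℤ)) := by
    rw [w.valuation_of_algebraMap]
    exact (w.intValuation_le_pow_iff_mem _ _).2 h
  rw [h1, map_mul, map_inv₀, val_eq_exp w X]
  calc w.valuation K (algebraMap (𝓞 K) K (z - a)) * (WithZero.exp (-ordK w X))⁻¹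
      ≤ WithZero.exp (-(m : ℤ)) * (WithZero.exp (-ordK w X))⁻¹ := mul_le_mul' h2 le_rfl
    _ = WithZero.exp (-(m : ℤ) + ordK w X) := by
        rw [← WithZero.exp_neg, neg_neg, ← WithZero.exp_add]
    _ ≤ WithZero.exp (-(n : ℤ)) := by
        rw [WithZero.exp_le_exp]
        linarith

theorem exists_pos (S : Finset (HeightOneSpectrum (𝓞 K))) (x : Kˣ) :
    ∃ y : Kˣ, (∀ v ∈ S, LSq v (y / x)) ∧ ∀ φ : K →+* ℝ, 0 < φ (y : K) := by
  obtain ⟨a, p, ha, hap, -⟩ := exists_int_mul_sq x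
  set X : Kˣ := x * p ^ 2 with hX
  have hXa : (X : K) = algebraMap (𝓞 K) K a := by rw [hX, ← hap]; push_cast; ring
  have hX0 : ∀ w, 0 ≤ ordK w X := fun w => ordK_nonneg_of_int w X a hXa
  obtain ⟨z, hz0, hz1, hz2⟩ := pos_int S (fun w => (ordK w X).toNat + (2 * e2 w + 1)) a
  have hz0' : algebraMap (𝓞 K) K z ≠ 0 := by
    intro h
    exact hz0 ((FaithfulSMul.algebraMap_injective (𝓞 K) K) (by rw [h, map_zero]))
  refine ⟨Units.mk0 _ hz0', fun v hv => ?_, fun φ => hz2 φ⟩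
  have h1 : Units.mk0 _ hz0' / x = Units.mk0 _ hz0' / X * p ^ 2 := by
    rw [hX, div_mul_eq_mul_div, mul_div_mul_right_eq_div]
  rw [h1]
  refine LSq_mul ?_ (LSq_sq v p)
  apply LSq_of_close
  refine pos_close v X _ a z hXa rfl _ _ (hz1 v hv) ?_
  push_cast
  rw [Int.toNat_of_nonneg (hX0 v)]

theorem perp_loc {T1 : Finset ℕ} {S : Finset (HeightOneSpectrum (𝓞 K))} (hS : Nic T1 S)
    (h2 : ∀ v : HeightOneSpectrum (𝓞 K), (2 : 𝓞 K) ∈ v.asIdeal → v ∈ S) (b : Kˣ)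
    (h : ∀ y : Kˣ, (∀ φ : K →+* ℝ, 0 < φ (y : K)) → BS S b y = 1) : ∀ v ∈ S, LSq v b := by
  obtain ⟨b', hb1, hb2⟩ := exists_pos S b
  have hn : ∀ v ∈ S, LSq v (b / b') := fun v hv => by
    have h3 := LSq_inv (hb1 v hv)
    rwa [inv_div] at h3
  have hpos : ∀ y : Kˣ, (∀ φ : K →+* ℝ, 0 < φ (y : K)) → BS S b' y = 1 := by
    intro y hy
    have h3 : BS S (b / b' * b') y = BS S (b / b') y * BS S b' y := BS_mul_left hS _ _ _
    rw [div_mul_cancel, rec2 S h2 _ y hn hy, h y hy, one_mul] at h3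
    exact h3.symm
  have hall : ∀ y : Kˣ, BS S b' y = 1 := by
    intro y
    obtain ⟨y', hy1, hy2⟩ := exists_pos S y
    have hm : ∀ v ∈ S, LSq v (y / y') := fun v hv => by
      have h3 := LSq_inv (hy1 v hv)
      rwa [inv_div] at h3
    have h3 : BS S (y / y' * y') b' = BS S (y / y') b' * BS S y' b' := BS_mul_left hS _ _ _
    rw [div_mul_cancel, rec2 S h2 _ b' hm hb2, BS_comm hS y' b', hpos y' hy2, one_mul] at h3
    rw [BS_comm hS b' y]
    exact h3
  have hb' := mem_HSub.1 (BS_nondeg hS b' hall)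
  intro v hv
  have h4 := LSq_mul (hn v hv) (hb'.1 v hv)
  rwa [div_mul_cancel] at h4

end Pool.Agent.THF
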