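import Pool.Agent.THF.T2.MNeg
import Pool.Agent.THF.K.Defs
import Pool.Agent.MD.I.Apx
import Pool.Agent.MD.I.M0c
import Pool.Agent.MD.I.Good
import Pool.Agent.QD.Inst

/-!
# THF/T2-Two: two known classes which differ only at `v0` (paper section 10 (d))

As `inst` (QD/Inst.lean), with `V ∪ S1` instead of `S'` and an element `z` which is totally negative and a nonsquare unit at the
places of `V`.
-/

namespace Pool.Agent.THF

open NumberField IsDedekindDomain Pool.Agent.HWR Pool.Agent.QD Pool.Agent.QD.In Pool.Agent.LD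
  Pool.Agent.MD

theorem two (K : Type) [Field K] [NumberField K] (T : Finset ℕ) (hTp : ∀ p ∈ T, p.Prime)
    (hT : ∀ p : ℕ, p.Prime → p < 101 → p ∈ T) (D : LocData T) (a : ℕ → ℝ)
    (ha : ∀ q : ℕ, |a q| ≤ 2 * Real.sqrt q) (ha2 : SqRel K T a)
    (V : Finset (HeightOneSpectrum (𝓞 K))) (hV : ∀ v ∈ V, Away K T v) :
    ∃ (T1 : Finset ℕ) (S : Finset (HeightOneSpectrum (𝓞 K))) (c1 c2 : GS S)
      (v0 : HeightOneSpectrum (𝓞 K)) (Phi : ℂ → ℂ), Nic T1 S ∧ (∀ v, ¬ Away K T v → v ∈ S) ∧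
      V ⊆ S ∧ c1 ∈ KNc S V ∧ c2 ∈ KNc S V ∧ Away K T v0 ∧
      (∀ w : ℂ, w.re < 0 → (sys S D a).M c1 w =
        ((Real.sqrt (nrm v0) : ℂ) * (1 + (nrm v0 : ℂ) ^ (w - 3 / 2))) * Phi w) ∧
      (∀ w : ℂ, w.re < 0 → (sys S D a).M c2 w = (1 + (nrm v0 : ℂ) ^ (w - 1 / 2)) * Phi w) ∧
      (∃ w : ℂ, w.re < 0 ∧ (sys S D a).M c1 w ≠ 0) ∧
      (∃ b0 : ℝ, ∀ s : ℂ, s.re < b0 → s.im ≠ 0 → (sys S D a).GG c2 s ≠ 0) ∧
      (∀ s : ℂ, s.re < 1 / 2 →
        (sys S D a).GG c1 s *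
            (1 + (a (nrm v0) : ℂ) * (nrm v0 : ℂ) ^ (1 - s) + (nrm v0 : ℂ) ^ (3 - 2 * s)) =
          (sys S D a).GG c2 s * ((nrm v0 : ℂ) *
            (1 + (a (nrm v0) : ℂ) * (nrm v0 : ℂ) ^ (-s) + (nrm v0 : ℂ) ^ (1 - 2 * s)))) := by
  classical
  have h2T : 2 ∈ T := hT 2 Nat.prime_two (by norm_num)
  obtain ⟨T1, S1, hTT, hT1p, hO, hG, hd⟩ := exists_goodV K T hTp h2T V hV
  have hS1 : Nic T1 S1 := ⟨hT1p, hTT h2T, S1, hO, hG, subset_rfl⟩
  have h21 : ∀ v : HeightOneSpectrum (𝓞 K), (2 : 𝓞 K) ∈ v.asIdeal → v ∈ S1 := hG.1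
  obtain ⟨x1, w0, hneg, hw0, hMx1⟩ := exists_Mneg hS1 h21
  have hy0 : ∀ v : HeightOneSpectrum (𝓞 K), ∃ y : Kˣ, v ∈ V → uK v y = -1 := by
    intro v
    by_cases hv : v ∈ V
    · obtain ⟨y, hy⟩ := LD.exists_nonres v (nic_two hS1 v (hd v hv))
      exact ⟨y, fun _ => hy⟩
    · exact ⟨1, fun h => absurd h hv⟩
  choose y hy using hy0
  have hpi0 : ∀ v : HeightOneSpectrum (𝓞 K), ∃ y : Kˣ, v ∈ V → Odd (ordK v y) := by
    intro v
    by_cases hv : v ∈ V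
    · obtain ⟨y, hy, -⟩ := nic_pi hS1 v (hd v hv)
      refine ⟨y, fun _ => ?_⟩
      rw [hy]
      exact odd_one
    · exact ⟨1, fun h => absurd h hv⟩
  choose pv hpv using hpi0
  obtain ⟨z, hz, hzV⟩ := approx_many S1 V hd x1 y
  have huz : ∀ v ∈ V, uK v z = -1 := fun v hv => by rw [(uK_congr' v (hzV v hv)).1, hy v hv]
  have hzneg : ∀ φ : K →+* ℝ, φ (z : K) < 0 := by
    intro φ
    have h1 : 0 < φ ((z / x1 : Kˣ) : K) := hz.2 φ
    have h3 : ((z / x1 : Kˣ) : K) * (x1 : K) = z := by rw [← Units.val_mul, div_mul_cancel]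
    rw [← h3, map_mul]
    exact mul_neg_of_pos_of_neg h1 (hneg φ)
  -- the set `S' = V ∪ S1`
  have hS' : Nic T1 (V ∪ S1) := nic_union hS1
  have hMxz : Mx (V ∪ S1) z w0 ≠ 0 := by
    rw [Mx_split hS1 hd y pv hy hpv z w0, Mx_congr hS1 hz w0]
    refine mul_ne_zero hMx1 (Finset.prod_ne_zero_iff.2 fun v hv => ?_)
    rw [m0_e v (nic_two hS1 v (hd v hv)) (hy v hv) (hpv v hv) (huz v hv) hw0]
    exact mul_ne_zero (fac_ne (two_le_nrm v) hw0) (ph_ne (two_le_nrm v) hw0)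
  have hsub : S1 ⊆ V ∪ S1 := Finset.subset_union_right
  generalize hSd : V ∪ S1 = S' at hS' hMxz hsub
  have hVS' : V ⊆ S' := hSd ▸ Finset.subset_union_left
  obtain ⟨v0, e, p, hv0, he, hp⟩ := exists_v0 hS'
  have hS : Nic T1 (insert v0 S') := nic_insert hS' v0
  have hST' : ∀ v, ¬ Away K T v → v ∈ S' := by
    intro v hv
    exact hsub ((hO v).2 fun h => hv fun q hq => h q (hTT hq))
  have hST : ∀ v, ¬ Away K T v → v ∈ insert v0 S' := fun v hv =>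
    Finset.mem_insert_of_mem (hST' v hv)
  have h2' : ∀ v : HeightOneSpectrum (𝓞 K), (2 : 𝓞 K) ∈ v.asIdeal → v ∈ S' := fun v hv =>
    hsub (h21 v hv)
  have h2 : ∀ v : HeightOneSpectrum (𝓞 K), (2 : 𝓞 K) ∈ v.asIdeal → v ∈ insert v0 S' := fun v hv =>
    Finset.mem_insert_of_mem (h2' v hv)
  have h20 : (2 : 𝓞 K) ∉ v0.asIdeal := nic_two hS' v0 hv0
  have hv0T : Away K T v0 := by
    by_contra h
    exact hv0 (hST' v0 h)
  obtain ⟨z1, hz1, hz1'⟩ := weak_approx S' v0 hv0 z e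
  obtain ⟨z2, hz2, hz2'⟩ := weak_approx S' v0 hv0 z p
  have hu1 : uK v0 z1 = -1 := by rw [(uK_congr' v0 hz1').1, he]
  have ho2 : Odd (ordK v0 z2) := (uK_congr' v0 hz2').2.2 hp
  have hq2 : 2 ≤ nrm v0 := two_le_nrm v0
  have hM1 : ∀ w : ℂ, Mx (insert v0 S') z1 w = Mx S' z w * m0 v0 e p z1 w := fun w => by
    rw [M_split v0 he hp hS' hv0 z1 w, Mx_congr hS' hz1 w]
  have hM2 : ∀ w : ℂ, Mx (insert v0 S') z2 w = Mx S' z w * m0 v0 e p z2 w := fun w => by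
    rw [M_split v0 he hp hS' hv0 z2 w, Mx_congr hS' hz2 w]
  have h12 : z1 / z2 ∈ QD.HSub S' := by
    have := (QD.HSub S').div_mem hz1 hz2
    rwa [div_div_div_cancel_right] at this
  have hGG : ∀ z : Kˣ, (sys (insert v0 S') D a).GG (QuotientGroup.mk z) =
      GGX (insert v0 S') D a z := fun z => GGX_congr D _ h2 hST (out_div _ z)
  have hVS : V ⊆ insert v0 S' := fun v hv => Finset.mem_insert_of_mem (hVS' hv)
  have hKN : ∀ z' : Kˣ, z' / z ∈ QD.HSub S' →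
      (QuotientGroup.mk z' : GS (insert v0 S')) ∈ KNc (insert v0 S') V := by
    intro z' hz'
    rw [mem_KNc hVS z']
    refine ⟨fun v hv hL => ?_, fun φ => ?_⟩
    · have h1 : uK v z' = -1 := by rw [(uK_congr' v (hz'.1 v (hVS' hv))).1, huz v hv]
      rw [uK_of_LSq hL] at h1
      norm_num at h1
    · have h1 : 0 < φ ((z' / z : Kˣ) : K) := hz'.2 φ
      have h3 : ((z' / z : Kˣ) : K) * (z : K) = z' := by rw [← Units.val_mul, div_mul_cancel]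
      rw [← h3, map_mul]
      exact mul_neg_of_pos_of_neg h1 (hzneg φ)
  refine ⟨T1, insert v0 S', QuotientGroup.mk z1, QuotientGroup.mk z2, v0,
    fun w => Mx S' z w * ph (nrm v0) w, hS, hST, hVS, hKN z1 hz1, hKN z2 hz2, hv0T, ?_, ?_, ?_, ?_, ?_⟩
  · intro w hw
    show Mx (insert v0 S') z1 w = _
    rw [hM1 w, m0_e v0 h20 he hp hu1 hw]
    ring
  · intro w hw
    show Mx (insert v0 S') z2 w = _
    rw [hM2 w, m0_p v0 h20 he hp ho2 hw]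
    ring
  · refine ⟨w0, hw0, ?_⟩
    show Mx (insert v0 S') z1 w0 ≠ 0
    rw [hM1 w0, m0_e v0 h20 he hp hu1 hw0]
    exact mul_ne_zero hMxz (mul_ne_zero (fac_ne hq2 hw0) (ph_ne hq2 hw0))
  · obtain ⟨b0, hb0⟩ := GGX_ne D (insert v0 S') hT ha z2
    refine ⟨b0, fun s hs him => ?_⟩
    rw [hGG z2]
    exact hb0 s hs him
  · intro s hs
    rw [hGG z1, hGG z2]
    exact GGX_rel D S' hT ha ha2 h2' hST' v0 hv0 h12 hu1 ho2 hs

end Pool.Agent.THF
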