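import Pool.Agent.QD.In.GamX
import Pool.Agent.QD.In.GamL
import Pool.Agent.QD.N4.Real
import Pool.Agent.QD.N4.SplitSq

/-!
# THF/T2-GamN: the factor `GamX` for local squares with arbitrary signs

`negs u` = number of real embeddings with `φ u < 0`.

`GamX_neg`: the types at `S` are `1`, `dd u = discr K ^ 2 * oddN S u` (proof as in QD/In/CongD),
`nr u + 2 negs u = nr 1`, `nc u = nc 1 + negs u`.  `gC_lim`: `gC` is continuous at `-1` with value
`0` (pole of the Gamma function), `gR` is continuous and nonzero there.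
-/

namespace Pool.Agent.THF

open NumberField IsDedekindDomain Pool.Agent.HWR Pool.Agent.QD Pool.Agent.QD.In

variable {K : Type} [Field K] [NumberField K]

/-- number of real embeddings at which `u` is negative -/
noncomputable def negs (u : Kˣ) : ℕ := Nat.card {φ : K →+* ℝ // φ (u : K) < 0}

section helpers

variable (S : Finset (HeightOneSpectrum (𝓞 K)))

open Classical in
private noncomputable def gnG (p : HeightOneSpectrum (𝓞 K) → Prop) (x : Kˣ)
    (v : HeightOneSpectrum (𝓞 K)) : ℕ :=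
  if p v ∧ Odd (ordK v x) then nrm v else 1

private theorem gn_G_pos' {p : HeightOneSpectrum (𝓞 K) → Prop} {x : Kˣ}
    {v : HeightOneSpectrum (𝓞 K)} (h : p v) (h' : Odd (ordK v x)) : gnG p x v = nrm v :=
  if_pos ⟨h, h'⟩

private theorem gn_G_neg' {p : HeightOneSpectrum (𝓞 K) → Prop} {x : Kˣ}
    {v : HeightOneSpectrum (𝓞 K)} (h : ¬ (p v ∧ Odd (ordK v x))) : gnG p x v = 1 :=
  if_neg h

private theorem gn_G_no1 (p : HeightOneSpectrum (𝓞 K) → Prop) (x : Kˣ)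
    (v : HeightOneSpectrum (𝓞 K)) (h : ¬ p v) : gnG p x v = 1 :=
  gn_G_neg' fun h1 => h h1.1

private theorem gn_G_no2 (p : HeightOneSpectrum (𝓞 K) → Prop) (x : Kˣ)
    (v : HeightOneSpectrum (𝓞 K)) (h : ¬ Odd (ordK v x)) : gnG p x v = 1 :=
  gn_G_neg' fun h1 => h h1.2

private theorem gn_G_congr {p q : HeightOneSpectrum (𝓞 K) → Prop} {x y : Kˣ}
    {v : HeightOneSpectrum (𝓞 K)} (h : (p v ∧ Odd (ordK v x)) ↔ (q v ∧ Odd (ordK v y))) :
    gnG p x v = gnG q y v := by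
  by_cases h1 : p v ∧ Odd (ordK v x)
  · rw [gn_G_pos' h1.1 h1.2, gn_G_pos' (h.1 h1).1 (h.1 h1).2]
  · rw [gn_G_neg' h1, gn_G_neg' fun h2 => h1 (h.2 h2)]

private theorem gn_G_supp (p : HeightOneSpectrum (𝓞 K) → Prop) (x : Kˣ)
    (v : HeightOneSpectrum (𝓞 K)) (h : ordK v x = 0) : gnG p x v = 1 := by
  unfold gnG
  rw [if_neg]
  rintro ⟨_, h1⟩
  rw [h] at h1
  exact absurd h1 (by decide)

private theorem gn_G_fin (p : HeightOneSpectrum (𝓞 K) → Prop) (x : Kˣ) :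
    Function.HasFiniteMulSupport (gnG p x) := by
  refine (QD.ordK_finite x).subset ?_
  intro v hv h
  exact hv (gn_G_supp p x v h)

private theorem gn_G_pos (p : HeightOneSpectrum (𝓞 K) → Prop) (x : Kˣ) :
    0 < ∏ᶠ v, gnG p x v := by
  refine finprod_induction (fun n : ℕ => 0 < n) Nat.one_pos (fun _ _ => Nat.mul_pos) fun v => ?_
  unfold gnG
  split_ifs
  · exact Nat.pos_of_ne_zero (nrm_ne_zero v)
  · exact Nat.one_pos

private theorem gn_odd (x : Kˣ) : oddN S x = ∏ᶠ v, gnG (fun v => v ∉ S) x v := by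
  classical
  unfold oddN
  have h1 := finprod_subtype_eq_finprod_cond
    (f := fun v : HeightOneSpectrum (𝓞 K) => if Odd (ordK v x) then nrm v else 1)
    (fun v : HeightOneSpectrum (𝓞 K) => v ∉ S)
  refine h1.trans (finprod_congr fun v => ?_)
  rw [finprod_eq_if]
  unfold gnG
  by_cases h2 : v ∉ S
  · by_cases h3 : Odd (ordK v x)
    · rw [if_pos h2, if_pos h3, if_pos ⟨h2, h3⟩]
    · rw [if_pos h2, if_neg h3, if_neg fun h => h3 h.2]
  · rw [if_neg h2, if_neg fun h => h2 h.1]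

private theorem gn_P2 (x : Kˣ) :
    ∏ᶠ v : {v : HeightOneSpectrum (𝓞 K) // (2 : 𝓞 K) ∉ v.asIdeal ∧ Odd (ordK v x)},
        (nrm v.1 : ℤ) = ((∏ᶠ v, gnG (fun v => (2 : 𝓞 K) ∉ v.asIdeal) x v : ℕ) : ℤ) := by
  classical
  have h1 := finprod_subtype_eq_finprod_cond (f := fun v : HeightOneSpectrum (𝓞 K) => (nrm v : ℤ))
    (fun v : HeightOneSpectrum (𝓞 K) => (2 : 𝓞 K) ∉ v.asIdeal ∧ Odd (ordK v x))
  have h2 : ((∏ᶠ v, gnG (fun v => (2 : 𝓞 K) ∉ v.asIdeal) x v : ℕ) : ℤ) =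
      ∏ᶠ v, ((gnG (fun v => (2 : 𝓞 K) ∉ v.asIdeal) x v : ℕ) : ℤ) :=
    MonoidHom.map_finprod_of_injective (Nat.castRingHom ℤ).toMonoidHom Nat.cast_injective _
  rw [h1, h2]
  refine finprod_congr fun v => ?_
  rw [finprod_eq_if]
  unfold gnG
  by_cases h3 : (2 : 𝓞 K) ∉ v.asIdeal ∧ Odd (ordK v x)
  · rw [if_pos h3, if_pos h3]
  · rw [if_neg h3, if_neg h3, Nat.cast_one]

private theorem gn_split (h2 : ∀ v : HeightOneSpectrum (𝓞 K), (2 : 𝓞 K) ∈ v.asIdeal → v ∈ S)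
    (x : Kˣ) : ∏ᶠ v, gnG (fun v => (2 : 𝓞 K) ∉ v.asIdeal) x v =
      oddN S x * ∏ᶠ v, gnG (fun v => v ∈ S ∧ (2 : 𝓞 K) ∉ v.asIdeal) x v := by
  classical
  rw [gn_odd, ← finprod_mul_distrib (gn_G_fin _ x) (gn_G_fin _ x)]
  refine finprod_congr fun v => ?_
  by_cases h3 : Odd (ordK v x)
  · by_cases h4 : v ∈ S
    · by_cases h5 : (2 : 𝓞 K) ∈ v.asIdeal
      · rw [gn_G_no1 (fun v => (2 : 𝓞 K) ∉ v.asIdeal) x v fun h => h h5,
          gn_G_no1 (fun v => v ∉ S) x v fun h => h h4,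
          gn_G_no1 (fun v => v ∈ S ∧ (2 : 𝓞 K) ∉ v.asIdeal) x v fun h => h.2 h5, one_mul]
      · rw [gn_G_pos' (p := fun v => (2 : 𝓞 K) ∉ v.asIdeal) h5 h3,
          gn_G_no1 (fun v => v ∉ S) x v fun h => h h4,
          gn_G_pos' (p := fun v => v ∈ S ∧ (2 : 𝓞 K) ∉ v.asIdeal) ⟨h4, h5⟩ h3, one_mul]
    · have h5 : (2 : 𝓞 K) ∉ v.asIdeal := fun h => h4 (h2 v h)
      rw [gn_G_pos' (p := fun v => (2 : 𝓞 K) ∉ v.asIdeal) h5 h3,
        gn_G_pos' (p := fun v => v ∉ S) h4 h3,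
        gn_G_no1 (fun v => v ∈ S ∧ (2 : 𝓞 K) ∉ v.asIdeal) x v fun h => h4 h.1, mul_one]
  · rw [gn_G_no2 _ x v h3, gn_G_no2 _ x v h3, gn_G_no2 _ x v h3, one_mul]

private theorem gn_sq {p : HeightOneSpectrum (𝓞 K) → Prop} {x : Kˣ}
    (h : ∀ v, p v → Even (ordK v x)) : ∏ᶠ v, gnG p x v = 1 := by
  refine finprod_eq_one_of_forall_eq_one fun v => ?_
  unfold gnG
  rw [if_neg]
  rintro ⟨h1, h2⟩
  exact (Int.not_even_iff_odd.2 h2) (h v h1)

private theorem gn_even_sq {x : Kˣ} (h : IsSquare x) (v : HeightOneSpectrum (𝓞 K)) :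
    Even (ordK v x) := by
  obtain ⟨y, rfl⟩ := h
  rw [ordK_mul]
  exact ⟨_, rfl⟩

end helpers

private theorem gn_dd {S : Finset (HeightOneSpectrum (𝓞 K))}
    (h2 : ∀ v : HeightOneSpectrum (𝓞 K), (2 : 𝓞 K) ∈ v.asIdeal → v ∈ S) {u : Kˣ}
    (hu : ∀ v ∈ S, LSq v u) : dd u = (NumberField.discr K : ℝ) ^ 2 * oddN S u := by
  unfold dd
  split_ifs with hx
  · have h1 : oddN S u = 1 := by
      rw [gn_odd]
      exact gn_sq fun v _ => gn_even_sq hx v
    rw [h1, Nat.cast_one, mul_one]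
  · have h3 := N4.disc_one' (qf hx).L (qf hx).deg u (qf hx).θ (qf hx).sq hx
      fun v hv => hu v (h2 v hv)
    have h4 : ∏ᶠ v, gnG (fun v => v ∈ S ∧ (2 : 𝓞 K) ∉ v.asIdeal) u v = 1 :=
      gn_sq fun v hv => even_of_LSq (hu v hv.1)
    rw [gn_P2, gn_split S h2 u, h4, mul_one] at h3
    have h5 := congrArg (fun n : ℤ => (n : ℝ)) h3
    push_cast at h5
    rw [sq_abs] at h5
    exact h5

private theorem gn_D0 {S : Finset (HeightOneSpectrum (𝓞 K))}
    (h2 : ∀ v : HeightOneSpectrum (𝓞 K), (2 : 𝓞 K) ∈ v.asIdeal → v ∈ S) {u : Kˣ}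
    (hu : ∀ v ∈ S, LSq v u) : D0 S u = (NumberField.discr K : ℝ) ^ 2 := by
  unfold D0
  have h1 : (0 : ℝ) < oddN S u := by exact_mod_cast oddN_pos S u
  rw [gn_dd h2 hu, mul_div_assoc, div_self h1.ne', mul_one]

private theorem gn_tt {S : Finset (HeightOneSpectrum (𝓞 K))} {u : Kˣ}
    (hu : ∀ v ∈ S, LSq v u) (v : HeightOneSpectrum (𝓞 K)) (hv : v ∈ S) : tt u v = 1 := by
  unfold tt
  split_ifs with hx
  · rfl
  · exact N4.ty_one' (qf hx).L (qf hx).deg u (qf hx).θ (qf hx).sq hx v (hu v hv)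

private theorem gn_one (v : HeightOneSpectrum (𝓞 K)) : LSq v (1 : Kˣ) := by
  intro k
  refine ⟨1, ?_⟩
  unfold closeOne
  rw [Units.val_one, one_pow, mul_one, sub_self, map_zero]
  exact zero_le

private theorem gn_card (u : Kˣ) : Nat.card {φ : K →+* ℝ // 0 < φ (u : K)} + negs u =
    Nat.card (K →+* ℝ) := by
  classical
  have : Finite (K →+* ℝ) := by
    have h1 : Function.Injective (fun φ : K →+* ℝ => (Complex.ofRealHom.comp φ : K →+* ℂ)) := by
      intro φ ψ h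
      ext a
      exact Complex.ofReal_injective (RingHom.congr_fun h a)
    exact Finite.of_injective _ h1
  unfold negs
  have h0 : ∀ φ : K →+* ℝ, φ (u : K) < 0 ↔ ¬ 0 < φ (u : K) := by
    intro φ
    have h2 : φ (u : K) ≠ 0 := (map_ne_zero φ).2 u.ne_zero
    constructor
    · intro h
      exact not_lt.2 h.le
    · intro h
      exact lt_of_le_of_ne (not_lt.1 h) h2
  rw [Nat.card_congr (Equiv.subtypeEquivRight h0), ← Nat.card_sum]
  exact Nat.card_congr (Equiv.sumCompl fun φ : K →+* ℝ => 0 < φ (u : K))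

private theorem gn_nr (u : Kˣ) : nr u + 2 * negs u = nr (1 : Kˣ) := by
  have h1 := gn_card u
  have h2 := gn_card (1 : Kˣ)
  have h3 : negs (1 : Kˣ) = 0 := by
    unfold negs
    have : IsEmpty {φ : K →+* ℝ // φ ((1 : Kˣ) : K) < 0} := by
      refine ⟨fun φ => ?_⟩
      obtain ⟨ψ, h4⟩ := φ
      have h5 : ψ ((1 : Kˣ) : K) = 1 := by rw [Units.val_one, map_one]
      linarith
    exact Nat.card_of_isEmpty
  rw [nr_eq, nr_eq]
  omega

theorem GamX_neg {S : Finset (HeightOneSpectrum (𝓞 K))}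
    (h2 : ∀ v : HeightOneSpectrum (𝓞 K), (2 : 𝓞 K) ∈ v.asIdeal → v ∈ S) {u : Kˣ}
    (hu : ∀ v ∈ S, LSq v u) {w : ℂ} (hw : w.re < 0) (hi : w.im ≠ 0) :
    GamX S u w = GamX S 1 w * (gC w / gR w ^ 2) ^ negs u := by
  have h1 : ∀ v ∈ S, LSq v (1 : Kˣ) := fun v _ => gn_one v
  have hR : gR w ≠ 0 := gR_ne (by linarith) hi
  have hnr := gn_nr u
  have hnc : nc u = nc (1 : Kˣ) + negs u := by
    have h3 := nr_nc u
    have h4 := nr_nc (1 : Kˣ)
    omega
  unfold GamX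
  have e1 : ∏ v ∈ S, zr (nrm v) (tt u v) w = ∏ v ∈ S, zr (nrm v) (tt (1 : Kˣ) v) w :=
    Finset.prod_congr rfl fun v hv => by rw [gn_tt hu v hv, gn_tt h1 v hv]
  rw [gn_D0 h2 hu, gn_D0 h2 h1, e1, ← hnr, hnc, div_pow, pow_add, pow_add, ← pow_mul]
  field_simp

theorem gC_lim : Filter.Tendsto (fun t : ℝ => gC (-1 + t * Complex.I) /
    gR (-1 + t * Complex.I) ^ 2) (nhdsWithin 0 (Set.Ioi 0)) (nhds 0) := by
  have hre : (-1 : ℂ).re < 1 := by
    rw [Complex.neg_re, Complex.one_re]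
    norm_num
  have hC0 : gC (-1) = 0 := by
    have h1 : Complex.Gammaℂ (-1) = 0 := by
      have h2 : Complex.Gamma (-1) = 0 := by
        have h3 := Complex.Gamma_neg_nat_eq_zero 1
        rwa [Nat.cast_one] at h3
      rw [Complex.Gammaℂ_def, h2, mul_zero]
    unfold gC
    rw [h1, inv_zero, mul_zero]
  have hR0 : gR (-1) ≠ 0 := by
    unfold gR
    refine mul_ne_zero (Complex.Gammaℝ_ne_zero_of_re_pos ?_) (inv_ne_zero fun h0 => ?_)
    · rw [Complex.sub_re, Complex.neg_re, Complex.one_re]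
      norm_num
    · obtain ⟨n, hn⟩ := Complex.Gammaℝ_eq_zero_iff.1 h0
      have h3 := congrArg Complex.re hn
      simp only [Complex.neg_re, Complex.one_re, Complex.mul_re, Complex.re_ofNat,
        Complex.natCast_re, Complex.im_ofNat, Complex.natCast_im, mul_zero, sub_zero] at h3
      have h4 : (1 : ℝ) = ((2 * n : ℕ) : ℝ) := by
        push_cast
        linarith
      have h5 : 1 = 2 * n := by exact_mod_cast h4
      omega
  have hline : ContinuousAt (fun t : ℝ => (-1 + t * Complex.I : ℂ)) 0 := by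
    fun_prop
  have h0 : (-1 + ((0 : ℝ) : ℂ) * Complex.I : ℂ) = -1 := by
    simp
  have hC : ContinuousAt (fun t : ℝ => gC (-1 + t * Complex.I)) 0 := by
    refine ContinuousAt.comp (g := gC) ?_ hline
    show ContinuousAt gC (-1 + ((0 : ℝ) : ℂ) * Complex.I)
    rw [h0]
    exact (gC_diff hre).continuousAt
  have hR : ContinuousAt (fun t : ℝ => gR (-1 + t * Complex.I)) 0 := by
    refine ContinuousAt.comp (g := gR) ?_ hline
    show ContinuousAt gR (-1 + ((0 : ℝ) : ℂ) * Complex.I)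
    rw [h0]
    exact (gR_diff hre).continuousAt
  have h1 : ContinuousAt (fun t : ℝ => gC (-1 + t * Complex.I) /
      gR (-1 + t * Complex.I) ^ 2) 0 := by
    refine hC.div (hR.pow 2) ?_
    rw [h0]
    exact pow_ne_zero 2 hR0
  have h2 := h1.tendsto
  rw [h0, hC0, zero_div] at h2
  exact h2.mono_left nhdsWithin_le_nhds

end Pool.Agent.THF
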