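import Pool.Agent.THF.T2.Perp
import Pool.Agent.THF.T2.GamN
import Pool.Agent.QD.In.V0c

/-!
# THF/T2-MNeg: some `Mx S x` with `x` totally negative is not zero (paper section 10 (c))

The sum of `Mx S (out (m1 * h)) w` over the classes `h` of totally positive elements, `m1` the
class of `-1`, is the number of these classes times `GamX S 1 w` times a sum over the classes
orthogonal to them; the latter tends to `1` for `w = -1 + i t`, `t → 0+`.
-/

namespace Pool.Agent.THF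

open NumberField IsDedekindDomain Pool.Agent.HWR Pool.Agent.QD Pool.Agent.QD.In

variable {K : Type} [Field K] [NumberField K]

private theorem mneg_div (S : Finset (HeightOneSpectrum (𝓞 K))) (x : Kˣ) (φ : K →+* ℝ) :
    0 < φ ((Quotient.out (QuotientGroup.mk x : GS S) : Kˣ) : K) / φ (x : K) := by
  have h := (out_div S x).2 φ
  rwa [Units.val_div_eq_div_val, map_div₀] at h

private theorem mneg_pos_iff (S : Finset (HeightOneSpectrum (𝓞 K))) (x : Kˣ) (φ : K →+* ℝ) :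
    0 < φ ((Quotient.out (QuotientGroup.mk x : GS S) : Kˣ) : K) ↔ 0 < φ (x : K) := by
  rcases div_pos_iff.1 (mneg_div S x φ) with ⟨h1, h2⟩ | ⟨h1, h2⟩
  · exact ⟨fun _ => h2, fun _ => h1⟩
  · exact ⟨fun h => absurd h h1.not_gt, fun h => absurd h h2.not_gt⟩

private theorem mneg_neg_iff (S : Finset (HeightOneSpectrum (𝓞 K))) (x : Kˣ) (φ : K →+* ℝ) :
    φ ((Quotient.out (QuotientGroup.mk x : GS S) : Kˣ) : K) < 0 ↔ φ (x : K) < 0 := by
  rcases div_pos_iff.1 (mneg_div S x φ) with ⟨h1, h2⟩ | ⟨h1, h2⟩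
  · exact ⟨fun h => absurd h h1.not_gt, fun h => absurd h h2.not_gt⟩
  · exact ⟨fun _ => h2, fun _ => h1⟩

open Classical in
private theorem mneg_sum {T1 : Finset ℕ} {S : Finset (HeightOneSpectrum (𝓞 K))} (hS : Nic T1 S)
    (P : Finset (GS S)) (hmul : ∀ g ∈ P, ∀ h ∈ P, g * h ∈ P) (hinv : ∀ g ∈ P, g⁻¹ ∈ P)
    (b : GS S) :
    ∑ h ∈ P, Bc S h b = if (∀ h ∈ P, Bc S h b = 1) then (P.card : ℂ) else 0 := by
  split_ifs with h
  · rw [Finset.sum_congr rfl h]
    simp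
  · push Not at h
    obtain ⟨h0, hh0, hne⟩ := h
    have h2 : ∑ g ∈ P, Bc S g b = ∑ g ∈ P, Bc S (h0 * g) b := by
      symm
      refine Finset.sum_nbij' (fun g => h0 * g) (fun g => h0⁻¹ * g) ?_ ?_ ?_ ?_ ?_
      · intro g hg
        exact hmul _ hh0 _ hg
      · intro g hg
        exact hmul _ (hinv _ hh0) _ hg
      · intro g _
        exact inv_mul_cancel_left h0 g
      · intro g _
        exact mul_inv_cancel_left h0 g
      · intro g _
        rfl
    have h3 : ∑ g ∈ P, Bc S (h0 * g) b = Bc S h0 b * ∑ g ∈ P, Bc S g b := by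
      rw [Finset.mul_sum]
      exact Finset.sum_congr rfl fun g _ => Bc_mul hS h0 g b
    rw [h3] at h2
    have h4 : (1 - Bc S h0 b) * ∑ g ∈ P, Bc S g b = 0 := by linear_combination h2
    exact (mul_eq_zero.1 h4).resolve_left (sub_ne_zero.2 (Ne.symm hne))

private theorem mneg_lim {ι : Type} (Q : Finset ι) (i0 : ι) (h0 : i0 ∈ Q) (c : ι → ℂ) (n : ι → ℕ)
    (hc : c i0 = 1) (hn : n i0 = 0) (hne : ∀ i ∈ Q, i ≠ i0 → n i ≠ 0) (r : ℝ → ℂ)
    (F : Filter ℝ) (hr : Filter.Tendsto r F (nhds 0)) :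
    Filter.Tendsto (fun t : ℝ => ∑ b ∈ Q, c b * r t ^ n b) F (nhds 1) := by
  have h3 : ∑ b ∈ Q, c b * (0 : ℂ) ^ n b = 1 := by
    rw [Finset.sum_eq_single i0]
    · rw [hn, pow_zero, mul_one, hc]
    · intro b hb hb1
      rw [zero_pow (hne b hb hb1), mul_zero]
    · intro h
      exact absurd h0 h
  rw [← h3]
  exact tendsto_finsetSum _ fun b _ => (hr.pow (n b)).const_mul (c b)

theorem exists_Mneg {T1 : Finset ℕ} {S : Finset (HeightOneSpectrum (𝓞 K))} (hS : Nic T1 S)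
    (h2 : ∀ v : HeightOneSpectrum (𝓞 K), (2 : 𝓞 K) ∈ v.asIdeal → v ∈ S) :
    ∃ (x : Kˣ) (w : ℂ), (∀ φ : K →+* ℝ, φ (x : K) < 0) ∧ w.re < 0 ∧ Mx S x w ≠ 0 := by
  classical
  let _ : Fintype (GS S) := Fintype.ofFinite _
  obtain ⟨m1, hm1⟩ : ∃ m1 : GS S, m1 = QuotientGroup.mk (-1 : Kˣ) := ⟨_, rfl⟩
  obtain ⟨P, hP⟩ : ∃ P : Finset (GS S), ∀ g, g ∈ P ↔
      ∀ φ : K →+* ℝ, 0 < φ ((Quotient.out g : Kˣ) : K) :=
    ⟨Finset.univ.filter fun g => ∀ φ : K →+* ℝ, 0 < φ ((Quotient.out g : Kˣ) : K),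
      fun g => by simp⟩
  have hout : ∀ g : GS S, (QuotientGroup.mk (Quotient.out g : Kˣ) : GS S) = g :=
    fun g => QuotientGroup.out_eq' g
  have hPmk : ∀ x : Kˣ, (QuotientGroup.mk x : GS S) ∈ P ↔ ∀ φ : K →+* ℝ, 0 < φ (x : K) := by
    intro x
    rw [hP]
    exact forall_congr' fun φ => mneg_pos_iff S x φ
  have hP1 : (1 : GS S) ∈ P := by
    have h := (hPmk 1).2 fun φ => by simp
    exact h
  have hPmul : ∀ g ∈ P, ∀ h ∈ P, g * h ∈ P := by
    intro g hg h hh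
    have h1 : g * h = QuotientGroup.mk ((Quotient.out g : Kˣ) * Quotient.out h) := by
      rw [QuotientGroup.mk_mul, hout, hout]
    rw [h1, hPmk]
    intro φ
    rw [Units.val_mul, map_mul]
    exact mul_pos ((hP g).1 hg φ) ((hP h).1 hh φ)
  have hPinv : ∀ g ∈ P, g⁻¹ ∈ P := by
    intro g hg
    have h1 : g⁻¹ = QuotientGroup.mk ((Quotient.out g : Kˣ)⁻¹) := by
      rw [QuotientGroup.mk_inv, hout]
    rw [h1, hPmk]
    intro φ
    rw [Units.val_inv_eq_inv_val, map_inv₀]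
    exact inv_pos.2 ((hP g).1 hg φ)
  obtain ⟨Q, hQ⟩ : ∃ Q : Finset (GS S), ∀ b, b ∈ Q ↔ ∀ h ∈ P, Bc S h b = 1 :=
    ⟨Finset.univ.filter fun b => ∀ h ∈ P, Bc S h b = 1, fun b => by simp⟩
  have hQ1 : (1 : GS S) ∈ Q := (hQ 1).2 fun h _ => Bc_one_right hS h
  have hQloc : ∀ b ∈ Q, ∀ v ∈ S, LSq v (Quotient.out b : Kˣ) := by
    intro b hb
    refine perp_loc hS h2 _ fun y hy => ?_
    have h3 := (hQ b).1 hb _ ((hPmk y).2 hy)
    have h4 : Bc S (QuotientGroup.mk y) b = (BS S y (Quotient.out b) : ℂ) := by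
      conv_lhs => rw [← hout b]
      exact Bc_mk hS y (Quotient.out b)
    rw [h4] at h3
    rw [BS_comm hS]
    exact_mod_cast h3
  have hQneg : ∀ b ∈ Q, b ≠ 1 → negs (Quotient.out b : Kˣ) ≠ 0 := by
    intro b hb hb1 h0
    apply hb1
    have hfin : Finite {φ : K →+* ℝ // φ ((Quotient.out b : Kˣ) : K) < 0} := by
      have : Finite (K →+* ℝ) := inferInstance
      infer_instance
    have h3 : ∀ φ : K →+* ℝ, 0 < φ ((Quotient.out b : Kˣ) : K) := by
      intro φ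
      rcases lt_trichotomy (φ ((Quotient.out b : Kˣ) : K)) 0 with h | h | h
      · exfalso
        have h5 : Nonempty {φ : K →+* ℝ // φ ((Quotient.out b : Kˣ) : K) < 0} := ⟨⟨φ, h⟩⟩
        have h6 : 0 < negs (Quotient.out b : Kˣ) := Nat.card_pos
        omega
      · exfalso
        rw [map_eq_zero] at h
        exact (Quotient.out b : Kˣ).ne_zero h
      · exact h
    rw [← hout b, QuotientGroup.eq_one_iff]
    exact ⟨hQloc b hb, h3⟩
  have hneg1 : negs (Quotient.out (1 : GS S) : Kˣ) = 0 := by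
    have h3 := (hP 1).1 hP1
    have h4 : IsEmpty {φ : K →+* ℝ // φ ((Quotient.out (1 : GS S) : Kˣ) : K) < 0} :=
      ⟨fun φ => absurd φ.2 (h3 φ.1).not_gt⟩
    exact Nat.card_of_isEmpty
  -- the identity
  have hid : ∀ w : ℂ, w.re < 0 → w.im ≠ 0 →
      ∑ h ∈ P, Mx S (Quotient.out (m1 * h)) w = (P.card : ℂ) * GamX S 1 w *
        ∑ b ∈ Q, Bc S m1 b * (gC w / gR w ^ 2) ^ negs (Quotient.out b : Kˣ) := by
    intro w hw hi
    have e1 : ∀ h ∈ P, Mx S (Quotient.out (m1 * h)) w =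
        ∑ b : GS S, Bc S m1 b * Bc S h b * GamX S (Quotient.out b) w := by
      intro h _
      unfold Mx
      rw [QuotientGroup.out_eq']
      exact Finset.sum_congr rfl fun b _ => by rw [Bc_mul hS]
    rw [Finset.sum_congr rfl e1, Finset.sum_comm]
    have e2 : ∀ b : GS S, ∑ h ∈ P, Bc S m1 b * Bc S h b * GamX S (Quotient.out b) w =
        if b ∈ Q then (P.card : ℂ) * GamX S 1 w *
          (Bc S m1 b * (gC w / gR w ^ 2) ^ negs (Quotient.out b : Kˣ)) else 0 := by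
      intro b
      rw [← Finset.sum_mul, ← Finset.mul_sum, mneg_sum hS P hPmul hPinv b]
      by_cases hb : b ∈ Q
      · rw [if_pos ((hQ b).1 hb), if_pos hb, GamX_neg h2 (hQloc b hb) hw hi]
        ring
      · rw [if_neg (fun h => hb ((hQ b).2 h)), if_neg hb]
        ring
    rw [Finset.sum_congr rfl fun b _ => e2 b, Finset.mul_sum, ← Finset.sum_filter]
    refine Finset.sum_congr ?_ fun _ _ => rfl
    ext b
    simp
  -- the limit
  have hlim : Filter.Tendsto (fun t : ℝ => ∑ b ∈ Q, Bc S m1 b *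
      (gC (-1 + t * Complex.I) / gR (-1 + t * Complex.I) ^ 2) ^ negs (Quotient.out b : Kˣ))
      (nhdsWithin 0 (Set.Ioi 0)) (nhds 1) :=
    mneg_lim Q 1 hQ1 (fun b => Bc S m1 b) (fun b => negs (Quotient.out b : Kˣ))
      (Bc_one_right hS m1) hneg1 hQneg (fun t : ℝ => gC (-1 + t * Complex.I) /
      gR (-1 + t * Complex.I) ^ 2) _ gC_lim
  have hev := hlim.eventually_ne one_ne_zero
  have hpos : ∀ᶠ t : ℝ in nhdsWithin 0 (Set.Ioi 0), 0 < t := self_mem_nhdsWithin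
  obtain ⟨t, ht1, ht0⟩ := (hev.and hpos).exists
  have hre : (-1 + (t : ℂ) * Complex.I).re < 0 := by simp
  have him : (-1 + (t : ℂ) * Complex.I).im ≠ 0 := by simpa using ht0.ne'
  have hid1 := hid _ hre him
  have hne : ∑ h ∈ P, Mx S (Quotient.out (m1 * h)) (-1 + (t : ℂ) * Complex.I) ≠ 0 := by
    rw [hid1]
    refine mul_ne_zero (mul_ne_zero ?_ (GamX_ne S _ hre him)) ht1
    exact Nat.cast_ne_zero.2 (Finset.card_pos.2 ⟨1, hP1⟩).ne'
  obtain ⟨h, hh, hh0⟩ := Finset.exists_ne_zero_of_sum_ne_zero hne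
  refine ⟨Quotient.out (m1 * h), _, fun φ => ?_, hre, hh0⟩
  have h5 : m1 * h = QuotientGroup.mk ((-1 : Kˣ) * Quotient.out h) := by
    rw [QuotientGroup.mk_mul, hout, hm1]
  rw [h5, mneg_neg_iff, Units.val_mul, map_mul, Units.val_neg, Units.val_one, map_neg, map_one]
  have h6 := (hP h).1 hh φ
  linarith

end Pool.Agent.THF
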