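import Pool.Agent.QD.N2.Rec
import Pool.Agent.QD.N3Main

/-!
# THF/T2-Rec2: reciprocity for `x` a local square at `S` (any signs) and `y` totally positive

The proof is the one of `reciprocity'` (QD/N2/Rec.lean), except for the signatures: here `y` is
totally positive, `ph y = ph 1` and `ph (x y) = ph x`.
-/

set_option autoImplicit false

namespace Pool.Agent.THF

open NumberField IsDedekindDomain Pool.Agent.HWR Pool.Agent.QD

variable {K : Type} [Field K] [NumberField K]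

open Pool.Agent.QD.N2 in
theorem rec2 (S : Finset (HeightOneSpectrum (𝓞 K)))
    (h2 : ∀ v : HeightOneSpectrum (𝓞 K), (2 : 𝓞 K) ∈ v.asIdeal → v ∈ S) (x y : Kˣ)
    (hx : ∀ v ∈ S, LSq v x) (hy : ∀ φ : K →+* ℝ, 0 < φ (y : K)) : BS S x y = 1 := by
  classical
  obtain ⟨m1, hm1, H1⟩ := prod_mu (1 : Kˣ)
  obtain ⟨mx, hmx, Hx⟩ := prod_mu x
  obtain ⟨my, hmy, Hy⟩ := prod_mu y
  obtain ⟨mxy, hmxy, Hxy⟩ := prod_mu (x * y)
  -- the finite set of interesting places
  set s0 : Finset (HeightOneSpectrum (𝓞 K)) :=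
    S ∪ (finite_ord x).toFinset ∪ (finite_ord y).toFinset with hs0
  choose d hd using exists_cond (K := K)
  -- a bound for the depth
  set bd : HeightOneSpectrum (𝓞 K) → ℕ := fun v =>
    d v + (2 * ordK v (two' K)).natAbs + (ordK v x).natAbs + (ordK v y).natAbs with hbd
  obtain ⟨B, hB0, hB⟩ := exists_deep s0 (∑ v ∈ s0, bd v)
  set Mn : ℕ := m1 * mx * my * mxy * B with hMn
  have hMn0 : Mn ≠ 0 := by positivity
  let M : Kˣ := Units.mk0 (Mn : K) (Nat.cast_ne_zero.2 hMn0)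
  have hM : (M : K) = (Mn : K) := rfl
  have hMdeep : ∀ v ∈ s0, (bd v : ℤ) ≤ ordK v M := by
    intro v hv
    have h3 : (M : K) ∈ Rv v ((∑ v ∈ s0, bd v : ℕ) : ℤ) := by
      rw [hM, hMn, Nat.cast_mul]
      have h4 := Rv_mul (v := v) (int_mem_Rv ((m1 * mx * my * mxy : ℕ) : 𝓞 K)) (hB v hv)
      rw [zero_add] at h4
      have e : (((m1 * mx * my * mxy : ℕ) : 𝓞 K) : K) = ((m1 * mx * my * mxy : ℕ) : K) := by
        push_cast
        rfl
      rwa [e] at h4
    have h5 := mem_Rv.1 h3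
    have h6 : bd v ≤ ∑ v ∈ s0, bd v := Finset.single_le_sum (fun _ _ => Nat.zero_le _) hv
    have h7 : (bd v : ℤ) ≤ ((∑ v ∈ s0, bd v : ℕ) : ℤ) := by exact_mod_cast h6
    exact h7.trans h5
  set M2 : Kˣ := (M ^ 2)⁻¹ with hM2
  have hordM2 : ∀ v, ordK v M2 = -(2 * ordK v M) := by
    intro v
    rw [hM2, QD.ordK_inv, QD.ordK_pow]
    norm_num
  -- the finite set of all relevant places
  obtain ⟨t, hst, ht1, htx, hty, htxy⟩ : ∃ t : Finset (HeightOneSpectrum (𝓞 K)), s0 ⊆ t ∧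
      (∀ v, v ∉ t → ((1 * M2 : Kˣ) : K) ∈ Rv v 0) ∧ (∀ v, v ∉ t → ((x * M2 : Kˣ) : K) ∈ Rv v 0) ∧
      (∀ v, v ∉ t → ((y * M2 : Kˣ) : K) ∈ Rv v 0) ∧
      (∀ v, v ∉ t → ((x * y * M2 : Kˣ) : K) ∈ Rv v 0) := by
    refine ⟨s0 ∪ (finite_not_mem ((1 * M2 : Kˣ) : K)).toFinset ∪
      (finite_not_mem ((x * M2 : Kˣ) : K)).toFinset ∪
      (finite_not_mem ((y * M2 : Kˣ) : K)).toFinset ∪
      (finite_not_mem ((x * y * M2 : Kˣ) : K)).toFinset, ?_, ?_, ?_, ?_, ?_⟩
    · intro v hv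
      simp only [Finset.mem_union]
      exact Or.inl (Or.inl (Or.inl (Or.inl hv)))
    all_goals
      intro v hv
      simp only [Finset.mem_union, Set.Finite.mem_toFinset, Set.mem_ofPred_eq, not_or, not_not]
        at hv
      tauto
  have e1 := H1 M ⟨mx * my * mxy * B, by rw [hM, hMn]; push_cast; ring⟩ t ht1
  have ex := Hx M ⟨m1 * my * mxy * B, by rw [hM, hMn]; push_cast; ring⟩ t htx
  have ey := Hy M ⟨m1 * mx * mxy * B, by rw [hM, hMn]; push_cast; ring⟩ t hty
  have exy := Hxy M ⟨m1 * mx * my * B, by rw [hM, hMn]; push_cast; ring⟩ t htxy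
  -- the signatures
  have py : ph ((y : Kˣ) : K) = ph ((1 : Kˣ) : K) := by
    have := sig_tot (ω := (1 : K)) one_ne_zero y.ne_zero hy
    rw [mul_one] at this
    unfold ph
    rw [this.1, this.2, Units.val_one]
  have pxy : ph ((x * y : Kˣ) : K) = ph ((x : Kˣ) : K) := by
    have := sig_tot (ω := (x : K)) x.ne_zero y.ne_zero hy
    unfold ph
    rw [Units.val_mul, mul_comm (x : K) (y : K), this.1, this.2]
  rw [py] at ey
  rw [pxy] at exy
  have hglob : SP ((∏ v ∈ t, mu v ((x * y * M2 : Kˣ) : K)) * ∏ v ∈ t, mu v ((1 * M2 : Kˣ) : K))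
      ((∏ v ∈ t, mu v ((x * M2 : Kˣ) : K)) * ∏ v ∈ t, mu v ((y * M2 : Kˣ) : K)) := by
    have h3 := exy.mul e1
    have h4 := ex.mul ey
    exact h3.trans h4.symm
  have hne : ((∏ v ∈ t, mu v ((x * M2 : Kˣ) : K)) * ∏ v ∈ t, mu v ((y * M2 : Kˣ) : K)) ≠ 0 :=
    mul_ne_zero (ex.ne_zero (ph_ne_zero _)) (ey.ne_zero (ph_ne_zero _))
  -- local comparison
  have hloc : ∀ v ∈ t, SP (mu v ((x * y * M2 : Kˣ) : K) * mu v ((1 * M2 : Kˣ) : K))
      (((if v ∈ S then (1 : ℤ) else hs v x y : ℤ) : ℂ) *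
        (mu v ((x * M2 : Kˣ) : K) * mu v ((y * M2 : Kˣ) : K))) := by
    intro v hv
    by_cases hvS : v ∈ S
    · have hv0 : v ∈ s0 := by
        rw [hs0]
        simp only [Finset.mem_union]
        exact Or.inl (Or.inl hvS)
      rw [if_pos hvS, Int.cast_one, one_mul, one_mul]
      have hdp := hMdeep v hv0
      have hL : LSq v x := hx v hvS
      have k1 : SP (mu v ((x * M2 : Kˣ) : K)) (mu v (M2 : K)) := by
        refine mu_lsq v (hd v) x M2 hL ?_
        rw [hordM2 v]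
        rw [hbd] at hdp
        push_cast at hdp
        have a1 := le_abs_self (2 * ordK v (two' K))
        have a2 := abs_nonneg (ordK v x)
        have a3 := abs_nonneg (ordK v y)
        have a4 := abs_nonneg (2 * ordK v (two' K))
        omega
      have k2 : SP (mu v ((x * (y * M2) : Kˣ) : K)) (mu v ((y * M2 : Kˣ) : K)) := by
        refine mu_lsq v (hd v) x (y * M2) hL ?_
        rw [QD.ordK_mul, hordM2 v]
        rw [hbd] at hdp
        push_cast at hdp
        have a1 := le_abs_self (2 * ordK v (two' K))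
        have a2 := abs_nonneg (ordK v x)
        have a3 := le_abs_self (ordK v y)
        have a5 := abs_nonneg (ordK v y)
        have a4 := abs_nonneg (2 * ordK v (two' K))
        omega
      rw [mul_assoc x y M2, mul_comm (mu v ((x * M2 : Kˣ) : K))]
      exact k2.mul k1.symm
    · rw [if_neg hvS, one_mul]
      have h2v : (2 : 𝓞 K) ∉ v.asIdeal := fun h => hvS (h2 v h)
      refine brk v h2v (hd v) x y M ?_
      by_cases hv0 : v ∈ s0
      · right
        have hdp := hMdeep v hv0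
        rw [hbd] at hdp
        push_cast at hdp
        have a2 := abs_nonneg (ordK v x)
        have a3 := abs_nonneg (ordK v y)
        have a4 := abs_nonneg (2 * ordK v (two' K))
        omega
      · left
        rw [hs0] at hv0
        simp only [Finset.mem_union, Set.Finite.mem_toFinset, Set.mem_ofPred_eq, not_or,
          not_not] at hv0
        exact ⟨hv0.1.2, hv0.2⟩
  have hprod := SP.prod t hloc
  rw [Finset.prod_mul_distrib, Finset.prod_mul_distrib, Finset.prod_mul_distrib] at hprod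
  have hfin : SP (((∏ v ∈ t, (if v ∈ S then (1 : ℤ) else hs v x y) : ℤ) : ℂ) *
      ((∏ v ∈ t, mu v ((x * M2 : Kˣ) : K)) * ∏ v ∈ t, mu v ((y * M2 : Kˣ) : K)))
      ((∏ v ∈ t, mu v ((x * M2 : Kˣ) : K)) * ∏ v ∈ t, mu v ((y * M2 : Kˣ) : K)) := by
    rw [Int.cast_prod]
    exact hprod.symm.trans hglob
  have hpm : (∏ v ∈ t, (if v ∈ S then (1 : ℤ) else hs v x y)) = 1 ∨
      (∏ v ∈ t, (if v ∈ S then (1 : ℤ) else hs v x y)) = -1 := by
    refine Finset.prod_induction _ (fun z : ℤ => z = 1 ∨ z = -1) ?_ (Or.inl rfl) ?_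
    · rintro a b (rfl | rfl) (rfl | rfl) <;> simp
    · intro v _
      split_ifs
      · exact Or.inl rfl
      · exact hs_sq' x y
  rw [BS_eq S t x y ?_]
  · exact SP.int_eq hpm hne hfin
  · intro v hvt _
    have hv0 : v ∉ s0 := fun h => hvt (hst h)
    rw [hs0] at hv0
    simp only [Finset.mem_union, Set.Finite.mem_toFinset, Set.mem_ofPred_eq, not_or,
      not_not] at hv0
    refine hs_ee x y ?_ ?_
    · rw [hv0.1.2]
      exact Even.zero
    · rw [hv0.2]
      exact Even.zero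

end Pool.Agent.THF
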